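import Pool.Agent.Y587.NZ.Share

/-!
# NZT-COLL: the condition at the collision places
-/

set_option autoImplicit false
set_option linter.all false

open Polynomial IsDedekindDomain
open scoped Classical

namespace Pool.Agent.Y587.NZ

open Pool.Agent.Y713.SE
open Pool.Agent.Y713.SE.Dat
open Pool.Agent.TH115.GD (pl Comp Sep)
open Pool.Agent.Y164.SZ (Tm)
open Pool.Agent.Y164.NZ

section tm
variable {ℓ n : ℕ} {k K : Type} [Field k] [Field K] [Algebra k[X] K] [IsFractionRing k[X] K]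

theorem ov_Tm (D : Dat ℓ n K) (hδ : D.δ = 1) (v : HeightOneSpectrum k[X]) (m : Fin n → ℕ)
    (i : Fin n) : ov ℓ v (Tm D m i) = ∑ k, (m k : ZMod ℓ) *
      (if k = i then -∑ j ∈ Finset.univ.erase i, ov ℓ v (D.e i - D.e j)
        else ov ℓ v (D.e i - D.e k)) := by
  have hne : ∀ a b, a ≠ b → D.e a - D.e b ≠ 0 := fun a b h => sub_ne_zero.2 fun h' => h (D.he h')
  have hprod : ∏ j ∈ Finset.univ.erase i, (D.e i - D.e j) ≠ 0 :=
    Finset.prod_ne_zero_iff.2 fun j hj => hne i j (Finset.ne_of_mem_erase hj).symm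
  unfold Tm
  rw [ov_prod]
  · refine Finset.sum_congr rfl fun k _ => ?_
    rw [ov_pow]
    congr 1
    split_ifs with h
    · rw [hδ, one_mul, ov_inv hprod, ov_prod _ _ fun j hj => hne i j (Finset.ne_of_mem_erase hj).symm]
    · rfl
  · intro k _
    refine pow_ne_zero _ ?_
    split_ifs with h
    · rw [hδ, one_mul]
      exact inv_ne_zero hprod
    · exact hne i k fun h' => h h'.symm

end tm

section
variable {ℓ n : ℕ} {k K : Type} [Field k] [Field K] [Algebra k[X] K] [IsFractionRing k[X] K]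

/-- the values modulo `ℓ` of the torsion classes at a collision place -/
theorem ov_coll (D : Dat ℓ n K) (hδ : D.δ = 1) (v : HeightOneSpectrum k[X]) (p q : Fin n)
    (hpq : p ≠ q)
    (h1 : ∀ i j, i ≠ j → ¬ (i = p ∧ j = q) → ¬ (i = q ∧ j = p) →
      v.valuation K (D.e i - D.e j) = 1)
    (h2 : v.valuation K (D.e p - D.e q) = WithZero.exp (-1 : ℤ)) (m : Fin n → ℕ) :
    ov ℓ v (Tm D m p) = m p - m q ∧ ov ℓ v (Tm D m q) = m q - m p ∧
      ∀ i, i ≠ p → i ≠ q → ov ℓ v (Tm D m i) = 0 := by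
  have hE : ∀ i j, i ≠ j → ¬ (i = p ∧ j = q) → ¬ (i = q ∧ j = p) →
      ov ℓ v (D.e i - D.e j) = 0 := fun i j a b c => ov_of_one (h1 i j a b c)
  have hpq1 : ov ℓ v (D.e p - D.e q) = -1 := by
    unfold ov lg
    rw [h2, WithZero.log_exp]
    push_cast
    rfl
  have hqp1 : ov ℓ v (D.e q - D.e p) = -1 := by
    rw [← hpq1, ← ov_neg, neg_sub]
  refine ⟨?_, ?_, ?_⟩
  · rw [ov_Tm D hδ, Finset.sum_eq_add p q hpq]
    · rw [if_pos rfl, if_neg hpq.symm, hpq1, Finset.sum_eq_single q]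
      · rw [hpq1]
        ring
      · intro j hj hjq
        exact hE p j (Finset.ne_of_mem_erase hj).symm (fun h => hjq h.2) (fun h => hpq h.1)
      · intro h
        exact absurd (Finset.mem_erase.2 ⟨hpq.symm, Finset.mem_univ _⟩) h
    · rintro k - ⟨hk1, hk2⟩
      rw [if_neg hk1, hE p k hk1.symm (fun h => hk2 h.2) (fun h => hpq h.1), mul_zero]
    · intro h; exact absurd (Finset.mem_univ _) h
    · intro h; exact absurd (Finset.mem_univ _) h
  · rw [ov_Tm D hδ, Finset.sum_eq_add q p hpq.symm]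
    · rw [if_pos rfl, if_neg hpq, hqp1, Finset.sum_eq_single p]
      · rw [hqp1]
        ring
      · intro j hj hjp
        exact hE q j (Finset.ne_of_mem_erase hj).symm (fun h => hpq h.1.symm) (fun h => hjp h.2)
      · intro h
        exact absurd (Finset.mem_erase.2 ⟨hpq, Finset.mem_univ _⟩) h
    · rintro k - ⟨hk1, hk2⟩
      rw [if_neg hk1, hE q k hk1.symm (fun h => hpq h.1.symm) (fun h => hk2 h.2), mul_zero]
    · intro h; exact absurd (Finset.mem_univ _) h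
    · intro h; exact absurd (Finset.mem_univ _) h
  · intro i hip hiq
    rw [ov_Tm D hδ]
    refine Finset.sum_eq_zero fun k _ => ?_
    split_ifs with h
    · rw [Finset.sum_eq_zero, neg_zero, mul_zero]
      intro j hj
      exact hE i j (Finset.ne_of_mem_erase hj).symm (fun h => hip h.1) (fun h => hiq h.1)
    · rw [hE i k (fun h' => h h'.symm) (fun h => hip h.1) (fun h => hiq h.1), mul_zero]

end

section
variable {ℓ n : ℕ} {k k' K F Ω : Type} [Field k] [CharZero k] [Field k'] [Algebra k k']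
    [IsSepClosure k k'] [Field K] [Algebra k[X] K] [IsFractionRing k[X] K] [Field F]
    [Algebra k'[X] F] [IsFractionRing k'[X] F] [Algebra K F] [Field Ω] [Algebra F Ω] [Algebra K Ω]
    [IsScalarTower K F Ω] [IsSepClosure F Ω] [IsGalois F Ω] [IsGalois K Ω] [IsSepClosed Ω]

theorem ovT (v : HeightOneSpectrum k[X]) (θ : k')
    (hval : ∀ x : K, (pl θ).valuation F (algebraMap K F x) = v.valuation K x) (x : K) :
    ov ℓ (pl θ) (algebraMap K F x) = ov ℓ v x := by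
  unfold ov
  rw [hval]

/-- the residue data -/
theorem rr_eq (D : Dat ℓ n K) {χ : (Ω ≃ₐ[K] Ω) → Fin n → ℕ} (kd : D.KD χ)
    (v : HeightOneSpectrum k[X]) (θ : k')
    (hval : ∀ x : K, (pl θ).valuation F (algebraMap K F x) = v.valuation K x)
    (ρ : Fin n → ZMod ℓ) (hρ : ∀ i j, ov ℓ v (kd.d i j) = ρ i - ρ j) (i : Fin n) :
    (kdF (F := F) D kd).rr D (pl θ) i = (n : ZMod ℓ) * ρ i - ∑ j, ρ j := by
  unfold KF.rr
  rw [ov_prod _ _ fun j _ => (kdF (F := F) D kd).d0 D i j]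
  have h1 : ∀ j, ov ℓ (pl θ) ((kdF (F := F) D kd).d i j) = ρ i - ρ j := by
    intro j
    show ov ℓ (pl θ) (algebraMap K F (kd.d i j)) = _
    rw [ovT v θ hval, hρ]
  rw [Finset.sum_congr rfl fun j _ => h1 j, Finset.sum_sub_distrib, Finset.sum_const,
    Finset.card_univ, Fintype.card_fin, nsmul_eq_mul]

end

theorem t (hRRT : S_RRT) (hPL : S_PL) (hLDE : S_LDE) (hLOCA : S_LOCA) (hLOCB : S_LOCB) :
    S_COLL := by
  intro ℓ n k k' K F Ω _ _ _ _ _ _ _ _ _ _ _ _ _ _ _ _ _ _ _ _ hKF D hℓ2 ζ hζ z hz χ hEx hδ v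
    p q c hpq hcp hcq h1 h2
  haveI : Fact ℓ.Prime := ⟨D.hp⟩
  obtain ⟨θ, hmem, hval⟩ := hPL k k' K F hKF v
  obtain ⟨kd0⟩ := D.exists_KD hEx.coc
  obtain ⟨ρ, hρd⟩ : ∃ ρ : Fin n → ZMod ℓ, ρ = fun i => ov ℓ v (kd0.d i c) := ⟨_, rfl⟩
  have hρ : ∀ i j, ov ℓ v (kd0.d i j) = ρ i - ρ j := by
    intro i j
    obtain ⟨x, hx, e⟩ := Pool.Agent.Y547.SZ.kd_rel D kd0 i j c
    have e1 := congrArg (ov ℓ v) e
    rw [ov_mul (Pool.Agent.Y547.SZ.kd_ne D kd0 _ _) (Pool.Agent.Y547.SZ.kd_ne D kd0 _ _),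
      ov_mul (pow_ne_zero _ hx) (Pool.Agent.Y547.SZ.kd_ne D kd0 _ _), ov_powl, zero_add] at e1
    rw [hρd]
    exact eq_sub_of_add_eq e1
  have hn : (n : ZMod ℓ) ≠ 0 := fun h => D.hn ((ZMod.natCast_eq_zero_iff n ℓ).1 h)
  have hℓk : (ℓ : k') ≠ 0 := by
    have e1 : (ℓ : k') = algebraMap k k' (ℓ : k) := (map_natCast _ _).symm
    rw [e1]
    exact (_root_.map_ne_zero _).2 (Nat.cast_ne_zero.2 D.hp.ne_zero)
  have ht : D.TrivF (Comp k'[X] F (pl θ)) (Sep (Comp k'[X] F (pl θ)))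
      (fun σ : Ω ≃ₐ[F] Ω => cl ((D.base Ω).PT (χ (σ.restrictScalars K)))) := by
    have h3 := hz.triv (pl θ)
    have hfun : (fun σ : Ω ≃ₐ[F] Ω => (D.base Ω).phi (z σ)) =
        fun σ => cl ((D.base Ω).PT (χ (σ.restrictScalars K))) :=
      funext fun σ => hEx.res σ _ (fun x => rfl)
    rw [hfun] at h3
    exact h3
  have hexp : WithZero.exp (-1 : ℤ) ≤ 1 := by
    rw [← WithZero.exp_zero]
    exact WithZero.exp_le_exp.2 (by norm_num)
  have hle : ∀ i j, (pl θ).valuation F (algebraMap K F (D.e i - D.e j)) ≤ 1 := by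
    intro i j
    rw [hval]
    by_cases hij : i = j
    · rw [hij, sub_self, map_zero]
      exact zero_le_one
    · by_cases ha : i = p ∧ j = q
      · rw [ha.1, ha.2, h2]
        exact hexp
      · by_cases hb : i = q ∧ j = p
        · rw [hb.1, hb.2, ← neg_sub, Valuation.map_neg, h2]
          exact hexp
        · exact (h1 i j hij ha hb).le
  have hrr : ∀ i, (kdF (F := F) D kd0).rr D (pl θ) i = (n : ZMod ℓ) * ρ i - ∑ j, ρ j :=
    fun i => rr_eq D kd0 v θ hval ρ hρ i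
  have hs1 : ∀ i, i ≠ p → i ≠ q → (n : ZMod ℓ) * ρ i - ∑ j, ρ j = 0 := by
    intro i hip hiq
    have h3 := D.sum_rr hδ hℓk (kdF (F := F) D kd0) (pl θ) ht hle (C := {i}) (by
      intro a ha b hb
      rw [Finset.mem_singleton] at ha hb
      subst ha
      rw [hval]
      exact h1 a b (fun h => hb h.symm) (fun h => hip h.1) (fun h => hiq h.1))
    rw [Finset.sum_singleton, hrr] at h3
    exact h3
  have hs2 : ((n : ZMod ℓ) * ρ p - ∑ j, ρ j) + ((n : ZMod ℓ) * ρ q - ∑ j, ρ j) = 0 := by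
    have h3 := D.sum_rr hδ hℓk (kdF (F := F) D kd0) (pl θ) ht hle (C := {p, q}) (by
      intro a ha b hb
      rw [Finset.mem_insert, Finset.mem_singleton] at ha hb
      push Not at hb
      rw [hval]
      refine h1 a b ?_ (fun h => hb.2 h.2) (fun h => hb.1 h.2)
      rintro rfl
      rcases ha with h | h
      · exact hb.1 h
      · exact hb.2 h)
    rw [Finset.sum_pair hpq, hrr, hrr] at h3
    exact h3
  have hρc : ρ c = 0 := by
    have h3 := hρ c c
    rw [sub_self] at h3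
    rw [hρd]
    exact h3
  have hsum : ∑ j, ρ j = 0 := by
    have h3 := hs1 c hcp hcq
    rw [hρc, mul_zero, zero_sub, neg_eq_zero] at h3
    exact h3
  have hρi : ∀ i, i ≠ p → i ≠ q → ρ i = 0 := by
    intro i hip hiq
    have h3 := hs1 i hip hiq
    rw [hsum, sub_zero] at h3
    exact (mul_eq_zero.1 h3).resolve_left hn
  have hρpq : ρ p + ρ q = 0 := by
    rw [hsum, sub_zero, sub_zero, ← mul_add] at hs2
    exact (mul_eq_zero.1 hs2).resolve_left hn
  haveI : NeZero ℓ := ⟨D.hp.ne_zero⟩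
  refine ⟨(ρ p).val, ?_⟩
  intro m Q χ' kd hmq hmp hAdj
  obtain ⟨o1, o2, o3⟩ := ov_coll D hδ v p q hpq h1 h2 m
  have hr : (((ρ p).val : ℕ) : ZMod ℓ) = ρ p := ZMod.natCast_zmod_val _
  rw [hmq, hmp, hr, Nat.cast_zero] at o1 o2
  have hG : ∀ i, ρ i + ov ℓ v (Tm D m i) = 0 := by
    intro i
    by_cases hip : i = p
    · rw [hip, o1]
      ring
    · by_cases hiq : i = q
      · rw [hiq, o2, sub_zero, add_comm]
        exact hρpq
      · rw [hρi i hip hiq, o3 i hip hiq, add_zero]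
  have hov : ∀ i j, ov ℓ v (kd.d i j) = 0 := by
    intro i j
    obtain ⟨x, hx, e⟩ := Pool.Agent.Y98.SZ.Adj.t ℓ n K D Ω hℓ2 m χ χ' kd0 kd Q hAdj.1 hAdj.2 i j
    have e1 := congrArg (ov ℓ v) e
    rw [ov_mul (Pool.Agent.Y547.SZ.kd_ne D kd _ _) (Pool.Agent.Y98.SZ.Adj.Tm_ne D m j),
      ov_mul (pow_ne_zero _ hx) (mul_ne_zero (Pool.Agent.Y547.SZ.kd_ne D kd0 _ _)
        (Pool.Agent.Y98.SZ.Adj.Tm_ne D m i)), ov_powl, zero_add,
      ov_mul (Pool.Agent.Y547.SZ.kd_ne D kd0 _ _) (Pool.Agent.Y98.SZ.Adj.Tm_ne D m i), hρ] at e1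
    linear_combination e1 + hG i - hG j
  refine ⟨fun i j => (ov_eq_zero (Pool.Agent.Y547.SZ.kd_ne D kd i j)).1 (hov i j), ?_⟩
  refine share hLDE hLOCA hLOCB hKF D hℓ2 ζ hζ z hz χ hEx v θ hmem hval m Q χ' kd hAdj hov p q ?_
  intro m' hm'
  obtain ⟨u1, -, u3⟩ := ov_coll D hδ v p q hpq h1 h2 m'
  have h3 := hm' p c
  rw [u1, u3 c hcp hcq, sub_eq_zero] at h3
  exact (ZMod.natCast_eq_natCast_iff _ _ _).1 h3

end Pool.Agent.Y587.NZ
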