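import Pool.Agent.Y164.NZ.StmT
import Pool.Agent.Y98.SZ.Adj
import Pool.Agent.Y547.SZ.Kda

/-!
# NZT: the common part of TWIST and COLL
-/

set_option autoImplicit false
set_option linter.all false

open Polynomial IsDedekindDomain
open scoped Classical

namespace Pool.Agent.Y587.NZ

open Pool.Agent.Y713.SE
open Pool.Agent.Y713.SE.Dat
open Pool.Agent.TH115.GD (pl Comp Sep)
open Pool.Agent.Y164.SZ (Tm)
open Pool.Agent.Y164.NZ

theorem grpA {G : Type} [AddCommGroup G] (z a A X Y B R : G) :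
    z + (a - A) - (X - Y) = z - (B - R) + (a - (X - B) - (A - (Y - R))) := by
  abel

theorem grpM {G : Type} [CommGroup G] (z a A X Y B R : G) :
    z * (a / A) / (X / Y) = z / (B / R) * (a / (X / B) / (A / (Y / R))) :=
  @grpA (Additive G) _ z a A X Y B R

section
variable {ℓ n : ℕ} {k k' K F Ω : Type} [Field k] [CharZero k] [Field k'] [Algebra k k']
    [IsSepClosure k k'] [Field K] [Algebra k[X] K] [IsFractionRing k[X] K] [Field F]
    [Algebra k'[X] F] [IsFractionRing k'[X] F] [Algebra K F] [Field Ω] [Algebra F Ω] [Algebra K Ω]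
    [IsScalarTower K F Ω] [IsSepClosure F Ω] [IsGalois F Ω] [IsGalois K Ω] [IsSepClosed Ω]

/-- Kummer data over `F` from Kummer data over `K` -/
noncomputable def kdF (D : Dat ℓ n K) {χ : (Ω ≃ₐ[K] Ω) → Fin n → ℕ} (kd : D.KD χ) :
    D.KF (fun σ : Ω ≃ₐ[F] Ω => χ (σ.restrictScalars K)) where
  θ := kd.θ
  d := fun i j => algebraMap K F (kd.d i j)
  h0 := kd.h0
  hθ := fun σ i j => kd.hθ (σ.restrictScalars K) i j
  hd := fun i j => by rw [kd.hd, ← IsScalarTower.algebraMap_apply]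

theorem share (hLDE : S_LDE) (hLOCA : S_LOCA) (hLOCB : S_LOCB)
    (hKF : HKF k k' K F) (D : Dat ℓ n K) (hℓ2 : ℓ ≠ 2) (ζ : k) (hζ : IsPrimitiveRoot ζ ℓ)
    (z : (Ω ≃ₐ[F] Ω) → ClassGroup (D.base Ω).A) (hz : Sec D k' z)
    (χ : (Ω ≃ₐ[K] Ω) → Fin n → ℕ)
    (hEx : Ex D z χ) (v : HeightOneSpectrum k[X]) (θ : k')
    (hmem : ∀ p : k[X], p ∈ v.asIdeal ↔ aeval θ p = 0)
    (hval : ∀ x : K, (pl θ).valuation F (algebraMap K F x) = v.valuation K x)
    (m : Fin n → ℕ) (Q : ClassGroup (D.base Ω).A) (χ' : (Ω ≃ₐ[K] Ω) → Fin n → ℕ) (kd : D.KD χ')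
    (hAdj : Adj D m χ Q χ') (hov : ∀ i j, ov ℓ v (kd.d i j) = 0) (i j : Fin n)
    (hij : ∀ m' : Fin n → ℕ, (∀ a b, ov ℓ v (Tm D m' a) = ov ℓ v (Tm D m' b)) →
      m' i ≡ m' j [MOD ℓ]) :
    ∃ w : v.adicCompletion K, algebraMap K (v.adicCompletion K) (kd.d i j) = w ^ ℓ := by
  obtain ⟨ld, hld⟩ := hLDE k k' K F Ω hKF θ
  obtain ⟨p, hp⟩ := ExpChar.exists Ω
  haveI := hp
  obtain ⟨R, hR⟩ := (D.base Ω).phi_surj (p := p) Q
  have hR' : (D.base Ω).phi R = Q := phi_eq_iff.2 hR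
  have hQ' : (D.base Ω).phi Q = cl ((D.base Ω).PT m) := phi_eq_iff.2 hAdj.1
  obtain ⟨z', hz'⟩ : ∃ z' : (Ω ≃ₐ[F] Ω) → ClassGroup (D.base Ω).A,
    z' = fun σ => z σ / (D.mC (rs K σ) R / R) := ⟨_, rfl⟩
  have hz'c : D.CocF z' := by
    rw [hz']
    exact hz.coc.div (D.cob_CocF R)
  have hz'1 : ∀ σ, (D.base Ω).phi (z' σ) =
      (D.base Ω).phi (z σ) / (D.mC (rs K σ) Q / Q) := by
    intro σ
    rw [hz']
    show (D.base Ω).phi (z σ / (D.mC (rs K σ) R / R)) = _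
    rw [_root_.map_div, _root_.map_div, ← mC_phi, hR']
  have hz'2 : ∀ σ, (D.base Ω).phi ((D.base Ω).phi (z' σ)) = 1 := by
    intro σ
    rw [hz'1, _root_.map_div, _root_.map_div, ← mC_phi, hQ', D.mC_PT (rs K σ), hz.two, div_self',
      div_one]
  have hz'3 : ∀ σ : Ω ≃ₐ[F] Ω, (D.base Ω).phi (z' σ) =
      cl ((D.base Ω).PT (χ' (σ.restrictScalars K))) := by
    intro σ
    rw [hz'1, hEx.res σ (σ.restrictScalars K) (fun x => rfl), hAdj.2]
    rfl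
  have hd0 : kd.d i j ≠ 0 := by
    intro h0
    have := kd.hd i j
    rw [h0, map_zero] at this
    exact kd.h0 i j (pow_eq_zero_iff D.pos.ne' |>.1 this)
  refine hLOCB ℓ k k' K F Ω hKF D.hp ζ hζ θ ld v hmem (kd.d i j) (kd.θ i j) hd0 (kd.hd i j)
    (hov i j) ?_
  intro s hs
  obtain ⟨τ, hτ⟩ := hld s hs
  refine ⟨τ, hτ, ?_⟩
  obtain ⟨A, hA1, hA2⟩ := hEx.rel τ
  have hA3 := hEx.val τ A hA1 hA2
  have hrel : Rel D z' τ (A / (D.mC (au τ) R / R)) := by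
    intro σ σ' hσ
    have h := hA1 σ σ' hσ
    have hcomp : D.mC (au τ) (D.mC (rs K σ') R) = D.mC (rs K σ) (D.mC (au τ) R) := by
      have e1 : (au τ).comp (rs K σ') = (rs K σ).comp (au τ) := AlgHom.ext fun x => hσ x
      rw [mC_mC, mC_mC, e1]
    rw [hz']
    show D.mC (au τ) (z σ' / (D.mC (rs K σ') R / R)) = z σ / (D.mC (rs K σ) R / R) *
      (D.mC (rs K σ) (A / (D.mC (au τ) R / R)) / (A / (D.mC (au τ) R / R)))
    rw [_root_.map_div, _root_.map_div, h, hcomp, _root_.map_div, _root_.map_div]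
    exact grpM _ _ _ _ _ _ _
  have hphi : (D.base Ω).phi (A / (D.mC (au τ) R / R)) = cl ((D.base Ω).PT (χ' τ)) := by
    rw [_root_.map_div, _root_.map_div, ← mC_phi, hR', hA3, hAdj.2]
  have h1 := hLOCA ℓ n k k' K F Ω hKF D hℓ2 θ ld s τ hτ hs z' hz'c hz'2
    (fun σ => χ' (σ.restrictScalars K)) (kdF D kd) hz'3 (fun i j => by
      show ov ℓ (pl θ) (algebraMap K F (kd.d i j)) = 0
      have h2 := hov i j
      unfold ov at h2 ⊢
      rw [hval]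
      exact h2) _ (χ' τ) hrel hphi
  have h2 : χ' τ i ≡ χ' τ j [MOD ℓ] := hij _ (fun a b => by
    have h3 := h1 a b
    unfold ov at h3 ⊢
    rw [hval, hval] at h3
    exact h3)
  have h3 := kd.hθ τ i j
  rw [(D.base Ω).ζ_pow_of_modEq h2] at h3
  exact mul_left_cancel₀ (pow_ne_zero _ (D.base Ω).ζ_ne) h3

end

end Pool.Agent.Y587.NZ
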